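import Mathlib

/-!
# Galois representations on the cohomology of smooth projective varieties over number fields
-/

set_option autoImplicit false

namespace Pool.Agent.X264.TC

universe u

/-- A representation of `G` on an `E`-vector space. -/
structure Rep (E : Type) [Field E] (G : Type u) [Group G] where
  V : Type
  [grp : AddCommGroup V]
  [mod : Module E V]
  ρ : G →* (V →ₗ[E] V)

attribute [instance] Rep.grp Rep.mod

namespace Rep

variable {E : Type} [Field E] {G : Type u} [Group G]

/-- the action of `g` on `v` -/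
def act (R : Rep E G) (g : G) (v : R.V) : R.V := R.ρ g v

/-- stable subspaces -/
def Stable (R : Rep E G) (U : Submodule E R.V) : Prop := ∀ g, ∀ v ∈ U, R.act g v ∈ U

/-- each stable subspace has a stable complement -/
def IsSemisimple (R : Rep E G) : Prop :=
  ∀ U : Submodule E R.V, R.Stable U → ∃ U' : Submodule E R.V, R.Stable U' ∧ IsCompl U U'

/-- The twist `R ⊗ χ` of `R` by the character `χ` is isomorphic to a subrepresentation of `R'`. -/
def Embeds (χ : G →* Eˣ) (R R' : Rep E G) : Prop :=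
  ∃ a : R.V →ₗ[E] R'.V, Function.Injective a ∧
    ∀ g x, R'.act g (a x) = (χ g : E) • a (R.act g x)

/-- `t` is a Tate class in `R = H^(2 j)(X̄, ℚ_p)`, that is, invariant in `H^(2 j)(X̄, ℚ_p(j))`: it
satisfies `g t = cyc(g)^(-j) t`. -/
def IsTate (R : Rep E G) (cyc : G →* Eˣ) (j : ℕ) (t : R.V) : Prop :=
  ∀ g, (cyc g : E) ^ j • R.act g t = t

/-- `g t = χ(g) t` for all `g` -/
def IsEigen (R : Rep E G) (χ : G →* Eˣ) (t : R.V) : Prop := ∀ g, R.act g t = (χ g : E) • t

open scoped TensorProduct in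
/-- the `r`-th tensor power of `R` -/
noncomputable def power (R : Rep E G) (r : ℕ) : Rep E G where
  V := ⨂[E] (_ : Fin r), R.V
  ρ := PiTensorProduct.mapMonoidHom.comp (Pi.monoidHom fun _ => R.ρ)

/-- `ι` and `π` commute with `h` -/
def Commutes {H : Subgroup G} (R : Rep E H) (R' : Rep E G) (ι : R.V →ₗ[E] R'.V)
    (π : R'.V →ₗ[E] R.V) (h : H) : Prop :=
  (∀ x, R'.act h (ι x) = ι (R.act h x)) ∧ ∀ y, π (R'.act h y) = R.act h (π y)

/-- The representation `R'` of `G` is induced from the representation `R` of the subgroup `H`: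
`R' = ⊕ g R`, `g ∈ G / H`, with `ι` the inclusion of the summand `R` and `π` the projection. -/
def IsInduced {H : Subgroup G} (R : Rep E H) (R' : Rep E G) : Prop :=
  ∃ (ι : R.V →ₗ[E] R'.V) (π : R'.V →ₗ[E] R.V), (∀ x, π (ι x) = x) ∧
    (∀ h, Commutes R R' ι π h) ∧ ∀ g ∉ H, ∀ x, π (R'.act g (ι x)) = 0

end Rep

/-- The smooth projective schemes `VarQ` over `ℚ` and `Var K` over the number fields `K`, with their
étale cohomology groups with coefficients in `E = ℚ_p`, as representations `cohQ X i` of `G = G_ℚ` and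
`coh X i` of the subgroup `gal K = G_K`; `dim X`; `rat X`: the variety `X` over `ℚ` is geometrically
integral and rational over `ℚ`; `cyc` is the cyclotomic character and `fin` the set of continuous
characters of finite order of `G`; for `dim X = 2 j`, `cup X j` is the cup product form on
`H^(2 j)(X̄)`. -/
structure Sys (E : Type) [Field E] where
  G : Type u
  [grp : Group G]
  Fld : Type u
  gal : Fld → Subgroup G
  VarQ : Type u
  Var : Fld → Type u
  cohQ : VarQ → ℕ → Rep E G
  coh : ∀ {K}, Var K → ℕ → Rep E (gal K)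
  dim : VarQ → ℕ
  rat : VarQ → Prop
  cyc : G →* Eˣ
  fin : (G →* Eˣ) → Prop
  cup : ∀ (X : VarQ) (j : ℕ), (cohQ X (2 * j)).V →ₗ[E] (cohQ X (2 * j)).V →ₗ[E] E

attribute [instance] Sys.grp

namespace Sys

variable {E : Type} [Field E] (S : Sys.{u} E)

/-- Q1 for `E = ℚ_p`: the cohomology of all smooth projective schemes over number fields is
semisimple. -/
def AllSemisimple : Prop :=
  (∀ (X : S.VarQ) (i : ℕ), (S.cohQ X i).IsSemisimple) ∧
    ∀ (K : S.Fld) (X : S.Var K) (i : ℕ), (S.coh X i).IsSemisimple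

/-- the middle cohomology `H^(2 j)(X̄)`, if `dim X = 2 j` -/
def mid (X : S.VarQ) (j : ℕ) : Rep E S.G := S.cohQ X (2 * j)

/-- the cup product form as a function -/
def pair (X : S.VarQ) (j : ℕ) (x y : (S.mid X j).V) : E := S.cup X j x y

/-- The cup product form is nondegenerate on the space `H^(2 j)(X̄, ℚ_p(j))^G` of the Tate classes. -/
def TateNondegenerate (X : S.VarQ) (j : ℕ) : Prop :=
  ∀ t, (S.mid X j).IsTate S.cyc j t →
    (∀ t', (S.mid X j).IsTate S.cyc j t' → S.pair X j t t' = 0) → t = 0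

/-- The cohomology groups are finite-dimensional. -/
def IsFinite : Prop := ∀ (X : S.VarQ) (i : ℕ), FiniteDimensional E (S.cohQ X i).V

/-- Restriction of scalars: a smooth projective scheme over `K` is a smooth projective scheme over
`ℚ`, whose cohomology is the induced representation. -/
def HasRestriction : Prop :=
  ∀ (K : S.Fld) (X : S.Var K), ∃ X' : S.VarQ, ∀ i, (S.coh X i).IsInduced (S.cohQ X' i)

/-- Powers `Y = X^r` and the Künneth formula. -/
def HasPowers : Prop :=
  ∀ (X : S.VarQ) (i r : ℕ), ∃ Y : S.VarQ,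
    Rep.Embeds 1 ((S.cohQ X i).power r) (S.cohQ Y (r * i))

/-- The twist by (the inverse of) a character `ψ` of finite order is a summand of the cohomology of
`X ⊗ F` over `ℚ`, with `F` the field cut out by `ψ`. -/
def HasTwists : Prop :=
  ∀ (X : S.VarQ) (ψ : S.G →* Eˣ), S.fin ψ → ∃ Y : S.VarQ, ∀ i,
    Rep.Embeds ψ⁻¹ (S.cohQ X i) (S.cohQ Y i)

/-- The blow-up `R` of a projective space in `X` (of codimension at least two). -/
def HasBlowUp : Prop :=
  ∀ X : S.VarQ, ∃ R : S.VarQ, S.rat R ∧
    ∀ i, Rep.Embeds S.cyc⁻¹ (S.cohQ X i) (S.cohQ R (i + 2))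

/-- The products `X' = X × P^n`. -/
def HasProjectiveSpaces : Prop :=
  ∀ (X : S.VarQ) (n : ℕ), ∃ X' : S.VarQ, S.dim X' = S.dim X + n ∧ (S.rat X → S.rat X') ∧
    ∀ i s : ℕ, s ≤ n → Rep.Embeds (S.cyc⁻¹ ^ s) (S.cohQ X i) (S.cohQ X' (i + 2 * s))

/-- Poincaré duality in the middle degree. -/
def HasDuality : Prop :=
  ∀ (X : S.VarQ) (j : ℕ), S.rat X → S.dim X = 2 * j →
    (∀ x, (∀ y, S.pair X j x y = 0) → x = 0) ∧
    ∀ g x y, ((S.cyc g : Eˣ) : E) ^ (2 * j) *
      S.pair X j ((S.mid X j).act g x) ((S.mid X j).act g y) = S.pair X j x y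

/-- One-dimensional subrepresentations of `H^i(X̄)` are twists of `ℚ_p(-m)`, `i = 2 m`, by characters
of finite order. -/
def HasLines : Prop :=
  ∀ (X : S.VarQ) (i : ℕ) (χ : S.G →* Eˣ) (t : (S.cohQ X i).V), t ≠ 0 →
    (S.cohQ X i).IsEigen χ t → ∃ m, i = 2 * m ∧ S.fin (χ * S.cyc ^ m)

/-- The properties of the étale cohomology which are used. -/
structure IsEtale : Prop where
  finite : S.IsFinite
  restriction : S.HasRestriction
  powers : S.HasPowers
  twists : S.HasTwists
  blowUp : S.HasBlowUp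
  projectiveSpaces : S.HasProjectiveSpaces
  duality : S.HasDuality
  lines : S.HasLines

end Sys

end Pool.Agent.X264.TC
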