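import Pool.Agent.X264.TC.Main

/-!
# Families of varieties closed under powers
-/

set_option autoImplicit false

open Module
open scoped TensorProduct

namespace Pool.Agent.X264.TC

universe u

/-- A class `Var` of smooth projective equidimensional schemes over a field `k`, with absolute Galois
group `G`: étale cohomology `coh X i` with coefficients in `E = ℚ_ℓ`, dimension, the cyclotomic
character `cyc`, the set `fin` of continuous characters of finite order, and the cup products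
`cup X i j : H^(2 i)(X̄) × H^(2 j)(X̄) → E` with values in the top degree (for `i + j = dim X`). -/
structure Fam (E : Type) [Field E] where
  G : Type u
  [grp : Group G]
  Var : Type u
  coh : Var → ℕ → Rep E G
  dim : Var → ℕ
  cyc : G →* Eˣ
  fin : (G →* Eˣ) → Prop
  cup : ∀ (X : Var) (i j : ℕ), (coh X (2 * i)).V →ₗ[E] (coh X (2 * j)).V →ₗ[E] E

attribute [instance] Fam.grp

namespace Fam

variable {E : Type} [Field E] (S : Fam.{u} E)

/-- the cohomology in the even degree `2 i` -/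
def even (X : S.Var) (i : ℕ) : Rep E S.G := S.coh X (2 * i)

/-- the cup product as a function -/
def pair (X : S.Var) (i j : ℕ) (x : (S.even X i).V) (y : (S.even X j).V) : E := S.cup X i j x y

/-- The cup product is nondegenerate (in the first variable) on the Tate classes
`H^(2 i)(X̄, ℚ_ℓ(i))^G × H^(2 j)(X̄, ℚ_ℓ(j))^G`. -/
def TateNondegenerate (X : S.Var) (i j : ℕ) : Prop :=
  ∀ t, (S.even X i).IsTate S.cyc i t →
    (∀ t', (S.even X j).IsTate S.cyc j t' → S.pair X i j t t' = 0) → t = 0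

/-- The cohomology groups are finite-dimensional and vanish above the degree `2 dim X`. -/
def IsFinite : Prop :=
  (∀ (X : S.Var) (i : ℕ), FiniteDimensional E (S.coh X i).V) ∧
    ∀ (X : S.Var) (i : ℕ), S.dim X < i → Subsingleton (S.even X i).V

/-- The class contains the powers `Y = X^r`, and the Künneth formula. -/
def HasPowers : Prop :=
  ∀ (X : S.Var) (i r : ℕ), ∃ Y : S.Var,
    Rep.Embeds 1 ((S.coh X i).power r) (S.coh Y (r * i))

/-- The class contains the schemes `X ⊗ F`, `F` an abelian extension of `k`: the twist by (the inverse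
of) a character `ψ` of finite order is a summand of the cohomology of `X ⊗ F`, with `F` the field cut
out by `ψ`. -/
def HasTwists : Prop :=
  ∀ (X : S.Var) (ψ : S.G →* Eˣ), S.fin ψ → ∃ Y : S.Var, ∀ i,
    Rep.Embeds ψ⁻¹ (S.coh X i) (S.coh Y i)

/-- Poincaré duality. -/
def HasDuality : Prop :=
  ∀ (X : S.Var) (i j : ℕ), i + j = S.dim X →
    (∀ x, (∀ y, S.pair X i j x y = 0) → x = 0) ∧
    ∀ g x y, ((S.cyc g : Eˣ) : E) ^ (i + j) *
      S.pair X i j ((S.even X i).act g x) ((S.even X j).act g y) = S.pair X i j x y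

/-- One-dimensional subrepresentations of `H^i(X̄)` are twists of `ℚ_ℓ(-m)`, `i = 2 m`, by characters
of finite order. -/
def HasLines : Prop :=
  ∀ (X : S.Var) (i : ℕ) (χ : S.G →* Eˣ) (t : (S.coh X i).V), t ≠ 0 →
    (S.coh X i).IsEigen χ t → ∃ m, i = 2 * m ∧ S.fin (χ * S.cyc ^ m)

/-- The properties which are used. -/
structure IsEtale : Prop where
  finite : S.IsFinite
  powers : S.HasPowers
  twists : S.HasTwists
  duality : S.HasDuality
  lines : S.HasLines

variable {S}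

lemma cup_tate {X : S.Var} {i j : ℕ} (hd : ∀ g x y, ((S.cyc g : Eˣ) : E) ^ (i + j) *
      S.pair X i j ((S.even X i).act g x) ((S.even X j).act g y) = S.pair X i j x y)
    {t : (S.coh X (2 * i)).V} (ht : (S.even X i).IsTate S.cyc i t) (g : S.G)
    (x : (S.coh X (2 * j)).V) :
    ((S.cyc g : Eˣ) : E) ^ j * S.cup X i j t ((S.coh X (2 * j)).ρ g x) = S.cup X i j t x := by
  have h1 : ((S.cyc g : Eˣ) : E) ^ i • (S.coh X (2 * i)).ρ g t = t := ht g
  have h2 : ((S.cyc g : Eˣ) : E) ^ (i + j) *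
      S.cup X i j ((S.coh X (2 * i)).ρ g t) ((S.coh X (2 * j)).ρ g x) = S.cup X i j t x := hd g t x
  have h3 : S.cup X i j t ((S.coh X (2 * j)).ρ g x) = ((S.cyc g : Eˣ) : E) ^ i *
      S.cup X i j ((S.coh X (2 * i)).ρ g t) ((S.coh X (2 * j)).ρ g x) := by
    conv_lhs => rw [← h1]
    rw [map_smul, LinearMap.smul_apply, smul_eq_mul]
  rw [pow_add] at h2
  rw [h3, ← h2]
  ring

lemma cup_tate' {X : S.Var} {i j : ℕ} (hd : ∀ g x y, ((S.cyc g : Eˣ) : E) ^ (i + j) *
      S.pair X i j ((S.even X i).act g x) ((S.even X j).act g y) = S.pair X i j x y)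
    {t : (S.coh X (2 * j)).V} (ht : (S.even X j).IsTate S.cyc j t) (g : S.G)
    (x : (S.coh X (2 * i)).V) :
    ((S.cyc g : Eˣ) : E) ^ i * S.cup X i j ((S.coh X (2 * i)).ρ g x) t = S.cup X i j x t := by
  have h1 : ((S.cyc g : Eˣ) : E) ^ j • (S.coh X (2 * j)).ρ g t = t := ht g
  have h2 : ((S.cyc g : Eˣ) : E) ^ (i + j) *
      S.cup X i j ((S.coh X (2 * i)).ρ g x) ((S.coh X (2 * j)).ρ g t) = S.cup X i j x t := hd g x t
  have h3 : S.cup X i j ((S.coh X (2 * i)).ρ g x) t = ((S.cyc g : Eˣ) : E) ^ j *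
      S.cup X i j ((S.coh X (2 * i)).ρ g x) ((S.coh X (2 * j)).ρ g t) := by
    conv_lhs => rw [← h1]
    rw [map_smul, smul_eq_mul]
  rw [pow_add] at h2
  rw [h3, ← h2]
  ring

/-- semisimplicity of `H^(2 j)` implies nondegeneracy on the Tate classes -/
theorem tate_of_semisimple (hD : S.HasDuality) {X : S.Var} {i j : ℕ} (hij : i + j = S.dim X)
    (hss : (S.coh X (2 * j)).IsSemisimple) : S.TateNondegenerate X i j := by
  obtain ⟨hnd, heq⟩ := hD X i j hij
  intro t ht h0
  by_contra hne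
  have hc : ∀ g, ((S.cyc g : Eˣ) : E) ^ j ≠ 0 := fun g => pow_ne_zero _ (S.cyc g).ne_zero
  have hK : (S.coh X (2 * j)).Stable (LinearMap.ker (S.cup X i j t)) := by
    intro g x hx
    rw [LinearMap.mem_ker] at hx ⊢
    change S.cup X i j t ((S.coh X (2 * j)).ρ g x) = 0
    have h1 := cup_tate heq ht g x
    rw [hx] at h1
    exact (mul_eq_zero.1 h1).resolve_left (hc g)
  obtain ⟨D, hDs, hDc⟩ := hss _ hK
  obtain ⟨x, hx⟩ : ∃ x, S.cup X i j t x ≠ 0 := by
    by_contra hcon
    push Not at hcon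
    exact hne (hnd t hcon)
  obtain ⟨a, ha, d, hd, rfl⟩ : ∃ a ∈ LinearMap.ker (S.cup X i j t), ∃ d ∈ D, a + d = x := by
    have : x ∈ LinearMap.ker (S.cup X i j t) ⊔ D := by
      rw [codisjoint_iff.1 hDc.2]
      trivial
    exact Submodule.mem_sup.1 this
  rw [map_add, LinearMap.mem_ker.1 ha, zero_add] at hx
  apply hx
  apply h0
  intro g
  have h2 : ((S.cyc g : Eˣ) : E) ^ j • (S.coh X (2 * j)).ρ g d - d ∈
      LinearMap.ker (S.cup X i j t) := by
    rw [LinearMap.mem_ker, map_sub, map_smul, smul_eq_mul, cup_tate heq ht g d, sub_self]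
  have h3 : ((S.cyc g : Eˣ) : E) ^ j • (S.coh X (2 * j)).ρ g d - d ∈ D :=
    D.sub_mem (D.smul_mem _ (hDs g d hd)) hd
  have h4 := Submodule.disjoint_def.1 hDc.1 _ h2 h3
  exact sub_eq_zero.1 h4

/-- the converse -/
theorem semisimple_of_tate [CharZero E] (hS : S.IsEtale)
    (hT : ∀ (X : S.Var) (i j : ℕ), i + j = S.dim X → S.TateNondegenerate X i j)
    (X : S.Var) (i : ℕ) : (S.coh X i).IsSemisimple := by
  have hfin := hS.finite.1 X i
  have hpow := hS.powers X i
  generalize S.coh X i = R at hfin hpow ⊢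
  intro U hU
  obtain ⟨r, hr⟩ : ∃ r, finrank E U = r := ⟨_, rfl⟩
  rcases r with _ | k
  · have hbot : U = ⊥ := by
      rw [← Submodule.finrank_eq_zero (R := E)]
      exact hr
    exact ⟨⊤, fun _ _ _ => trivial, by rw [hbot]; exact isCompl_bot_top⟩
  let e : Basis (Fin (k + 1)) E U := (finBasis E U).reindex (finCongr hr)
  let t := R.alt (k + 1) (fun i => (e i : R.V))
  have ht0 : t ≠ 0 := R.alt_ne_zero U e
  have htχ : ∀ g, (R.power (k + 1)).ρ g t = ((R.detSub U hU g : Eˣ) : E) • t :=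
    fun g => R.alt_basis U hU e g
  obtain ⟨Y, hY⟩ := hpow (k + 1)
  generalize (k + 1) * i = n at hY
  obtain ⟨m, hm, hfin'⟩ : ∃ m, n = 2 * m ∧ S.fin (R.detSub U hU * S.cyc ^ m) := by
    obtain ⟨a, ha, ha'⟩ := hY
    change ∀ g x, (S.coh Y n).ρ g (a x) =
      (((1 : S.G →* Eˣ) g : Eˣ) : E) • a ((R.power (k + 1)).ρ g x) at ha'
    refine hS.lines Y n (R.detSub U hU) (a t) (fun h => ht0 (ha (by rw [h, map_zero]))) ?_
    intro g
    change (S.coh Y n).ρ g (a t) = _
    rw [ha', htχ, map_smul]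
    simp
  subst hm
  obtain ⟨Z, hZ⟩ := hS.twists Y _ hfin'
  have hZ1 := hY.trans (hZ (2 * m))
  obtain ⟨a, ha, ha'⟩ := hZ1
  change ∀ g x, (S.coh Z (2 * m)).ρ g (a x) =
      (((1 * (R.detSub U hU * S.cyc ^ m)⁻¹ : S.G →* Eˣ) g : Eˣ) : E) •
        a ((R.power (k + 1)).ρ g x) at ha'
  have hm : m ≤ S.dim Z := by
    by_contra hcon
    have h1 : Subsingleton (S.coh Z (2 * m)).V := hS.finite.2 Z m (not_le.1 hcon)
    exact ht0 (ha (h1.elim _ _))
  obtain ⟨j, hj⟩ := Nat.exists_eq_add_of_le hm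
  obtain ⟨hnd, heq⟩ := hS.duality Z m j hj.symm
  have hθ : ∀ g, (((1 * (R.detSub U hU * S.cyc ^ m)⁻¹ : S.G →* Eˣ) g : Eˣ) : E) *
      (((R.detSub U hU g : Eˣ) : E) * ((S.cyc g : Eˣ) : E) ^ m) = 1 := by
    intro g
    rw [← Units.val_pow_eq_pow_val, ← Units.val_mul, ← Units.val_mul, Units.val_eq_one]
    simp only [MonoidHom.mul_apply, MonoidHom.inv_apply, MonoidHom.pow_apply, MonoidHom.one_apply]
    rw [one_mul, inv_mul_cancel]
  have hat : (S.even Z m).IsTate S.cyc m (a t) := by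
    intro g
    change ((S.cyc g : Eˣ) : E) ^ m • (S.coh Z (2 * m)).ρ g (a t) = a t
    rw [ha', htχ, map_smul, smul_smul, smul_smul]
    have h1 := hθ g
    have h2 : ((S.cyc g : Eˣ) : E) ^ m *
      (((1 * (R.detSub U hU * S.cyc ^ m)⁻¹ : S.G →* Eˣ) g : Eˣ) : E)
        * ((R.detSub U hU g : Eˣ) : E) = 1 := by linear_combination h1
    rw [h2, one_smul]
  obtain ⟨t', ht', hne⟩ : ∃ t' : (S.coh Z (2 * j)).V, (S.even Z j).IsTate S.cyc j t' ∧
      S.cup Z m j (a t) t' ≠ 0 := by
    by_contra hcon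
    push Not at hcon
    have h1 := hT Z m j hj.symm (a t) hat hcon
    exact ht0 (ha (h1.trans (map_zero a).symm))
  refine R.exists_compl U hU e (((S.cup Z m j).flip t').comp a) (fun g x => ?_) hne
  change S.cup Z m j (a ((R.power (k + 1)).ρ g x)) t' = _ * S.cup Z m j (a x) t'
  have h2 := cup_tate' heq ht' g (a x)
  rw [ha' g x, map_smul, LinearMap.smul_apply, smul_eq_mul] at h2
  have h3 := hθ g
  rw [← h2]
  linear_combination (-(S.cup Z m j (a ((R.power (k + 1)).ρ g x)) t')) * h3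

theorem main [CharZero E] (hS : S.IsEtale) :
    (∀ (X : S.Var) (i : ℕ), (S.coh X i).IsSemisimple) ↔
      ∀ (X : S.Var) (i j : ℕ), i + j = S.dim X → S.TateNondegenerate X i j :=
  ⟨fun h X i j hij => tate_of_semisimple hS.duality hij (h X (2 * j)),
    fun h => semisimple_of_tate hS h⟩

end Fam

end Pool.Agent.X264.TC
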