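import Mathlib

/-!
# Stable complements from equivariant alternating forms
-/

set_option autoImplicit false

open Module

namespace Pool.Agent.X264.TC

variable {E : Type*} [Field E] {V : Type*} [AddCommGroup V] [Module E V]

/-- moving the first entry to the missing index -/
lemma form_cons {M N : Type*} [AddCommGroup M] [Module E M] [AddCommGroup N] [Module E N] {k : ℕ}
    (H : M [⋀^Fin (k + 1)]→ₗ[E] N) (u : Fin (k + 1) → M) (v : M) (l : Fin (k + 1))
    (τ : Fin k → Fin (k + 1)) (hτ : Function.Injective τ) (hl : ∀ i, τ i ≠ l) :
    ∃ s : ℤˣ, H (Matrix.vecCons v (fun i => u (τ i))) = s • H (Function.update u l v) := by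
  have hinj : Function.Injective (Fin.cons l τ : Fin (k + 1) → Fin (k + 1)) := by
    rw [Fin.cons_injective_iff]
    exact ⟨by rintro ⟨i, hi⟩; exact hl i hi, hτ⟩
  let π : Equiv.Perm (Fin (k + 1)) :=
    Equiv.ofBijective _ (Finite.injective_iff_bijective.1 hinj)
  refine ⟨Equiv.Perm.sign π, ?_⟩
  rw [← H.map_perm]
  congr 1
  funext i
  refine Fin.cases ?_ (fun j => ?_) i
  · simp [π]
  · have h1 : (π j.succ) = τ j := by simp [π]
    simp only [Matrix.cons_val_succ, Function.comp_apply, h1]
    rw [Function.update_of_ne (hl j)]

/-- Let `F` be an alternating form in `dim U` variables, which is an eigenvector of the group and does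
not vanish on the stable subspace `U`. Then `U` has a stable complement. -/
theorem exists_compl_of_form {G : Type*} [Group G] (ρ : G →* (V →ₗ[E] V)) (U : Submodule E V)
    (hU : ∀ g, ∀ v ∈ U, ρ g v ∈ U) {k : ℕ} (e : Basis (Fin (k + 1)) E U)
    (χ : G →* Eˣ) (F : V [⋀^Fin (k + 1)]→ₗ[E] E)
    (hF : ∀ g w, F (fun i => ρ g (w i)) = (χ g : E) * F w)
    (hne : F (fun i => (e i : V)) ≠ 0) :
    ∃ U' : Submodule E V, (∀ g, ∀ v ∈ U', ρ g v ∈ U') ∧ IsCompl U U' := by
  classical
  set u : Fin (k + 1) → V := fun i => (e i : V) with hu
  set c : E := F u with hc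
  let A := F.curryLeft
  have hA : ∀ v y, A v y = F (Matrix.vecCons v y) := fun v y => rfl
  let K : Submodule E V :=
    { carrier := {v | ∀ y : Fin k → U, A v (fun i => (y i : V)) = 0}
      add_mem' := by
        intro a b ha hb y
        rw [map_add, AlternatingMap.add_apply, ha y, hb y, add_zero]
      zero_mem' := by
        intro y
        rw [map_zero, AlternatingMap.zero_apply]
      smul_mem' := by
        intro a b hb y
        rw [map_smul, AlternatingMap.smul_apply, hb y, smul_zero] }
  have hK : ∀ v, v ∈ K ↔ ∀ y : Fin k → U, F (Matrix.vecCons v (fun i => (y i : V))) = 0 :=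
    fun v => Iff.rfl
  -- values on `U`
  have hup : ∀ (i : Fin (k + 1)) (v : U), F (Function.update u i (v : V)) = e.repr v i * c := by
    intro i v
    let L : U →ₗ[E] E := (F.toMultilinearMap.toLinearMap u i).comp U.subtype
    let L' : U →ₗ[E] E := (LinearMap.mulRight E c).comp (e.coord i)
    have hLL : L = L' := by
      apply e.ext
      intro j
      change F (Function.update u i (u j)) = e.repr (e j) i * c
      rw [e.repr_self]
      by_cases hij : j = i
      · subst hij
        rw [Function.update_eq_self, Finsupp.single_eq_same, one_mul]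
      · rw [Finsupp.single_eq_of_ne (Ne.symm hij), zero_mul]
        apply F.map_eq_zero_of_eq _ (i := i) (j := j)
        · rw [Function.update_self, Function.update_of_ne hij]
        · exact Ne.symm hij
    exact LinearMap.congr_fun hLL v
  refine ⟨K, ?_, ?_, ?_⟩
  · intro g v hv
    rw [hK] at hv ⊢
    intro y
    have h1 : (Matrix.vecCons (ρ g v) (fun i => (y i : V))) =
        fun i => ρ g (Matrix.vecCons v (fun i => ((⟨ρ g⁻¹ (y i), hU _ _ (y i).2⟩ : U) : V)) i) := by
      funext i
      refine Fin.cases ?_ (fun j => ?_) i
      · rfl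
      · simp only [Matrix.cons_val_succ]
        rw [← Module.End.mul_apply, ← map_mul, mul_inv_cancel, map_one, Module.End.one_apply]
    rw [h1, hF, hv, mul_zero]
  · rw [Submodule.disjoint_def]
    intro v hvU hvK
    have h2 : ∀ i, e.repr ⟨v, hvU⟩ i = 0 := by
      intro i
      obtain ⟨s, hs⟩ := form_cons F u v i i.succAbove (Fin.succAbove_right_injective)
        (fun j => Fin.succAbove_ne i j)
      have h3 := hvK (fun j => e (i.succAbove j))
      rw [hA] at h3
      rw [h3, hup i ⟨v, hvU⟩] at hs
      have h4 : e.repr ⟨v, hvU⟩ i * c = 0 := by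
        rcases Int.units_eq_one_or s with h | h
        · simpa [h] using hs.symm
        · simpa [h] using hs.symm
      exact (mul_eq_zero.1 h4).resolve_right hne
    have h3 : (⟨v, hvU⟩ : U) = 0 := by
      apply e.repr.injective
      ext i
      rw [h2 i, map_zero]
      rfl
    exact congrArg Subtype.val h3
  · rw [codisjoint_iff, Submodule.eq_top_iff']
    intro v
    let P : U := ∑ i, (c⁻¹ * F (Function.update u i v)) • e i
    have hP : ∀ i, e.repr P i = c⁻¹ * F (Function.update u i v) := by
      intro i
      simp [P, map_sum, Finsupp.single_apply]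
    have h5 : ∀ i, F (Function.update u i (v - P)) = 0 := by
      intro i
      have h6 : F (Function.update u i (v - P)) =
          F (Function.update u i v) - F (Function.update u i (P : V)) :=
        F.map_update_sub u i v P
      rw [h6, hup, hP]
      field_simp
      ring
    have h7 : v - P ∈ K := by
      rw [hK]
      have h8 : (A (v - P)).compLinearMap U.subtype = 0 := by
        apply e.ext_alternating
        intro τ hτ
        obtain ⟨l, hl⟩ : ∃ l, ∀ i, τ i ≠ l := by
          by_contra hcon
          push Not at hcon
          have := Fintype.card_le_of_surjective τ hcon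
          simp at this
        obtain ⟨s, hs⟩ := form_cons F u (v - P) l τ hτ hl
        rw [h5 l, smul_zero] at hs
        exact hs
      intro y
      have h9 := congrArg (fun f : U [⋀^Fin k]→ₗ[E] E => f y) h8
      exact h9
    exact Submodule.mem_sup.2 ⟨P, P.2, v - P, h7, by abel⟩

/-- An alternating map on a space of dimension `r` in `r` variables is determined by its value at a
basis. -/
lemma alternating_eq {N U : Type*} [AddCommGroup N] [Module E N] [AddCommGroup U] [Module E U]
    {r : ℕ} (e : Basis (Fin r) E U) (H : U [⋀^Fin r]→ₗ[E] N) (w : Fin r → U) :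
    H w = e.det w • H e := by
  have h : H = (LinearMap.toSpanSingleton E N (H e)).compAlternatingMap e.det := by
    apply e.ext_alternating
    intro τ hτ
    let π : Equiv.Perm (Fin r) := Equiv.ofBijective _ (Finite.injective_iff_bijective.1 hτ)
    have h1 : H (fun i => e (τ i)) = Equiv.Perm.sign π • H e := H.map_perm _ π
    have h2 : e.det (fun i => e (τ i)) = Equiv.Perm.sign π • e.det e := e.det.map_perm _ π
    rw [h1, LinearMap.compAlternatingMap_apply, h2, e.det_self, LinearMap.toSpanSingleton_apply]
    rcases Int.units_eq_one_or (Equiv.Perm.sign π) with h | h <;> simp [h]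
  conv_lhs => rw [h]
  rfl

end Pool.Agent.X264.TC
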