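import Pool.Agent.X264.TC.Defs
import Pool.Agent.X264.TC.Form

/-!
# Semisimplicity and Tate classes
-/

set_option autoImplicit false

open Module
open scoped TensorProduct

namespace Pool.Agent.X264.TC

universe u

namespace Rep

variable {E : Type} [Field E] {G : Type u} [Group G]

lemma Embeds.trans {χ χ' : G →* Eˣ} {R R' R'' : Rep E G} (h : Embeds χ R R')
    (h' : Embeds χ' R' R'') : Embeds (χ * χ') R R'' := by
  obtain ⟨a, ha, ha'⟩ := h
  obtain ⟨b, hb, hb'⟩ := h'
  refine ⟨b.comp a, hb.comp ha, fun g x => ?_⟩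
  rw [LinearMap.comp_apply, hb', ha', map_smul, smul_smul, LinearMap.comp_apply]
  congr 1
  rw [MonoidHom.mul_apply, Units.val_mul, mul_comm]

/-- the action on a stable subspace -/
def onSub (R : Rep E G) (U : Submodule E R.V) (hU : R.Stable U) : G →* (U →ₗ[E] U) where
  toFun g := (R.ρ g).restrict (show ∀ v ∈ U, R.ρ g v ∈ U from hU g)
  map_one' := by
    ext x
    rw [LinearMap.restrict_apply]
    change R.ρ 1 x = x
    rw [map_one]
    rfl
  map_mul' := by
    intro g h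
    ext x
    change R.ρ (g * h) x = R.ρ g (R.ρ h x)
    rw [map_mul]
    rfl

/-- the determinant of a stable subspace -/
noncomputable def detSub (R : Rep E G) (U : Submodule E R.V) (hU : R.Stable U) : G →* Eˣ :=
  MonoidHom.toHomUnits (LinearMap.det.comp (R.onSub U hU))

lemma detSub_apply (R : Rep E G) (U : Submodule E R.V) (hU : R.Stable U) (g : G) :
    ((R.detSub U hU g : Eˣ) : E) = LinearMap.det (R.onSub U hU g) := rfl

/-- the alternating map to the tensor power -/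
noncomputable def alt (R : Rep E G) (r : ℕ) : R.V [⋀^Fin r]→ₗ[E] (R.power r).V :=
  MultilinearMap.alternatization
    (PiTensorProduct.tprod E : MultilinearMap E (fun _ : Fin r => R.V) (⨂[E] _ : Fin r, R.V))

lemma alt_ρ (R : Rep E G) (r : ℕ) (g : G) (w : Fin r → R.V) :
    (R.power r).ρ g (R.alt r w) = R.alt r (fun i => R.ρ g (w i)) := by
  have h1 : ∀ z, R.alt r z = ∑ σ : Equiv.Perm (Fin r), Equiv.Perm.sign σ •
      (PiTensorProduct.tprod E (fun i => z (σ i)) : ⨂[E] _ : Fin r, R.V) := by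
    intro z
    exact MultilinearMap.alternatization_apply _ _
  rw [h1, h1]
  refine (map_sum (PiTensorProduct.map (fun _ : Fin r => R.ρ g)) _ _).trans ?_
  refine Finset.sum_congr rfl fun σ _ => ?_
  have h2 : (R.power r).ρ g (PiTensorProduct.tprod E (fun i => w (σ i)) : ⨂[E] _ : Fin r, R.V) =
      (PiTensorProduct.tprod E (fun i => R.ρ g (w (σ i))) : ⨂[E] _ : Fin r, R.V) :=
    PiTensorProduct.map_tprod _ _
  rcases Int.units_eq_one_or (Equiv.Perm.sign σ) with h | h
  · rw [h, one_smul, one_smul]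
    exact h2
  · rw [h]
    simp only [Units.neg_smul, one_smul, map_neg]
    rw [← h2]
    rfl

lemma alt_basis (R : Rep E G) (U : Submodule E R.V) (hU : R.Stable U) {r : ℕ}
    (e : Basis (Fin r) E U) (g : G) :
    (R.power r).ρ g (R.alt r (fun i => (e i : R.V))) =
      ((R.detSub U hU g : Eˣ) : E) • R.alt r (fun i => (e i : R.V)) := by
  rw [alt_ρ]
  let H : U [⋀^Fin r]→ₗ[E] (R.power r).V := (R.alt r).compLinearMap U.subtype
  have h1 := alternating_eq e H (fun i => R.onSub U hU g (e i))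
  have h2 : e.det (fun i => R.onSub U hU g (e i)) = LinearMap.det (R.onSub U hU g) := by
    have := e.det_comp (R.onSub U hU g) e
    rw [e.det_self, mul_one] at this
    exact this
  rw [h2] at h1
  exact h1

lemma alt_ne_zero [CharZero E] (R : Rep E G) (U : Submodule E R.V) {r : ℕ}
    (e : Basis (Fin r) E U) : R.alt r (fun i => (e i : R.V)) ≠ 0 := by
  obtain ⟨p, hp⟩ := LinearMap.exists_leftInverse_of_injective U.subtype (Submodule.ker_subtype U)
  let D : R.V [⋀^Fin r]→ₗ[E] E := e.det.compLinearMap p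
  let φ : (⨂[E] _ : Fin r, R.V) →ₗ[E] E := PiTensorProduct.lift D.toMultilinearMap
  have h1 : φ.compAlternatingMap (R.alt r) = Nat.factorial (Fintype.card (Fin r)) • D := by
    have h2 := LinearMap.compMultilinearMap_alternatization φ
      (PiTensorProduct.tprod E : MultilinearMap E (fun _ : Fin r => R.V) (⨂[E] _ : Fin r, R.V))
    rw [← AlternatingMap.coe_alternatization D]
    refine h2.symm.trans ?_
    congr 1
    ext w
    exact PiTensorProduct.lift.tprod _
  intro h0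
  have h3 := congrArg (fun f : R.V [⋀^Fin r]→ₗ[E] E => f (fun i => (e i : R.V))) h1
  have h4 : φ.compAlternatingMap (R.alt r) (fun i => (e i : R.V)) = 0 := by
    change φ (R.alt r (fun i => (e i : R.V))) = 0
    rw [h0]
    exact map_zero φ
  have h5 : D (fun i => (e i : R.V)) = 1 := by
    change e.det (fun i => p (e i : R.V)) = 1
    have : (fun i => p (e i : R.V)) = e := by
      funext i
      exact LinearMap.congr_fun hp (e i)
    rw [this, e.det_self]
  change φ.compAlternatingMap (R.alt r) (fun i => (e i : R.V)) =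
    (Nat.factorial (Fintype.card (Fin r)) • D) (fun i => (e i : R.V)) at h3
  rw [h4, AlternatingMap.smul_apply, h5, nsmul_eq_mul, mul_one] at h3
  exact (Nat.cast_ne_zero.2 (Nat.factorial_ne_zero _)) h3.symm

/-- A stable subspace has a stable complement if its top exterior power is detected by a functional
on the tensor power. -/
theorem exists_compl (R : Rep E G) (U : Submodule E R.V) (hU : R.Stable U) {k : ℕ}
    (e : Basis (Fin (k + 1)) E U) (f : (R.power (k + 1)).V →ₗ[E] E)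
    (hf : ∀ g x, f ((R.power (k + 1)).ρ g x) = ((R.detSub U hU g : Eˣ) : E) * f x)
    (hne : f (R.alt (k + 1) (fun i => (e i : R.V))) ≠ 0) :
    ∃ U' : Submodule E R.V, R.Stable U' ∧ IsCompl U U' := by
  refine exists_compl_of_form R.ρ U hU e (R.detSub U hU) (f.compAlternatingMap (R.alt (k + 1)))
    (fun g w => ?_) hne
  change f (R.alt (k + 1) (fun i => R.ρ g (w i))) = _
  rw [← alt_ρ, hf]
  rfl

/-- An equivariant projection gives a stable complement. -/
lemma compl_of_proj (R : Rep E G) (U : Submodule E R.V) (p : R.V →ₗ[E] R.V)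
    (h1 : ∀ v, p v ∈ U) (h2 : ∀ u ∈ U, p u = u) (h3 : ∀ g v, p (R.ρ g v) = R.ρ g (p v)) :
    ∃ U' : Submodule E R.V, R.Stable U' ∧ IsCompl U U' := by
  refine ⟨LinearMap.ker p, fun g v hv => ?_, ?_, ?_⟩
  · rw [LinearMap.mem_ker] at hv ⊢
    change p (R.ρ g v) = 0
    rw [h3, hv, map_zero]
  · rw [Submodule.disjoint_def]
    intro x hx hx'
    rw [← h2 x hx]
    exact hx'
  · rw [codisjoint_iff, Submodule.eq_top_iff']
    intro v
    refine Submodule.mem_sup.2 ⟨p v, h1 v, v - p v, ?_, by abel⟩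
    rw [LinearMap.mem_ker, map_sub, h2 _ (h1 v), sub_self]

/-- If an induced representation is semisimple then so is the given representation. -/
theorem IsInduced.isSemisimple {H : Subgroup G} {R : Rep E H} {R' : Rep E G}
    (h : R.IsInduced R') (hR' : R'.IsSemisimple) : R.IsSemisimple := by
  intro U hU
  obtain ⟨ι, π, h1, h23, h4⟩ := h
  have h2 : ∀ (h : H) x, R'.ρ h (ι x) = ι (R.ρ h x) := fun h => (h23 h).1
  have h3 : ∀ (h : H) y, π (R'.ρ h y) = R.ρ h (π y) := fun h => (h23 h).2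
  change ∀ g ∉ H, ∀ x, π (R'.ρ g (ι x)) = 0 at h4
  let U' : Submodule E R'.V := Submodule.span E {y | ∃ g, ∃ x ∈ U, R'.ρ g (ι x) = y}
  have hU' : R'.Stable U' := by
    intro g v hv
    change R'.ρ g v ∈ U'
    induction hv using Submodule.span_induction with
    | mem y hy =>
      obtain ⟨g', x, hx, rfl⟩ := hy
      refine Submodule.subset_span ⟨g * g', x, hx, ?_⟩
      rw [map_mul]
      rfl
    | zero =>
      rw [map_zero]
      exact U'.zero_mem
    | add a b _ _ ha hb =>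
      rw [map_add]
      exact U'.add_mem ha hb
    | smul c a _ ha =>
      rw [map_smul]
      exact U'.smul_mem c ha
  have hπ : ∀ v ∈ U', π v ∈ U := by
    intro v hv
    induction hv using Submodule.span_induction with
    | mem y hy =>
      obtain ⟨g, x, hx, rfl⟩ := hy
      by_cases hg : g ∈ H
      · have h5 := h2 ⟨g, hg⟩ x
        change R'.ρ g (ι x) = _ at h5
        rw [h5, h1]
        exact hU _ x hx
      · rw [h4 g hg x]
        exact U.zero_mem
    | zero =>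
      rw [map_zero]
      exact U.zero_mem
    | add a b _ _ ha hb =>
      rw [map_add]
      exact U.add_mem ha hb
    | smul c a _ ha =>
      rw [map_smul]
      exact U.smul_mem c ha
  obtain ⟨C, hC, hUC⟩ := hR' U' hU'
  let q : R'.V →ₗ[E] R'.V := U'.subtype.comp (Submodule.projectionOnto U' C hUC)
  have hq1 : ∀ v, q v ∈ U' := fun v => (Submodule.projectionOnto U' C hUC v).2
  have hq2 : ∀ v ∈ U', q v = v := by
    intro v hv
    have := Submodule.projectionOnto_apply_left hUC ⟨v, hv⟩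
    exact congrArg Subtype.val this
  have hq3 : ∀ v ∈ C, q v = 0 := by
    intro v hv
    have := (Submodule.projectionOnto_apply_eq_zero_iff hUC).2 hv
    exact congrArg Subtype.val this
  have hq4 : ∀ g v, q (R'.ρ g v) = R'.ρ g (q v) := by
    intro g v
    obtain ⟨a, ha, b, hb, rfl⟩ : ∃ a ∈ U', ∃ b ∈ C, a + b = v := by
      have : v ∈ U' ⊔ C := by
        rw [codisjoint_iff.1 hUC.2]
        trivial
      exact Submodule.mem_sup.1 this
    have e1 : q (R'.ρ g a) = R'.ρ g a := hq2 _ (hU' g a ha)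
    have e2 : q (R'.ρ g b) = 0 := hq3 _ (hC g b hb)
    rw [map_add, map_add, e1, e2, map_add, hq2 a ha, hq3 b hb, add_zero, add_zero]
  refine compl_of_proj R U (π.comp (q.comp ι)) (fun v => hπ _ (hq1 _)) (fun u hu => ?_)
    (fun g v => ?_)
  · have h5 : ι u ∈ U' := Submodule.subset_span ⟨1, u, hu, by rw [map_one]; rfl⟩
    change π (q (ι u)) = u
    rw [hq2 _ h5, h1]
  · change π (q (ι (R.ρ g v))) = R.ρ g (π (q (ι v)))
    rw [← h2, hq4, h3]

end Rep

namespace Sys

variable {E : Type} [Field E] {S : Sys.{u} E}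

lemma fun_tate {X : S.VarQ} {j : ℕ} (hd : ∀ g x y, ((S.cyc g : Eˣ) : E) ^ (2 * j) *
      S.pair X j ((S.mid X j).act g x) ((S.mid X j).act g y) = S.pair X j x y)
    {t : (S.cohQ X (2 * j)).V} (ht : (S.mid X j).IsTate S.cyc j t) (g : S.G)
    (x : (S.cohQ X (2 * j)).V) :
    ((S.cyc g : Eˣ) : E) ^ j * S.cup X j t ((S.cohQ X (2 * j)).ρ g x) = S.cup X j t x ∧
    ((S.cyc g : Eˣ) : E) ^ j * S.cup X j ((S.cohQ X (2 * j)).ρ g x) t = S.cup X j x t := by
  have h1 : ((S.cyc g : Eˣ) : E) ^ j • (S.cohQ X (2 * j)).ρ g t = t := ht g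
  have hc : ((S.cyc g : Eˣ) : E) ^ (2 * j) =
      ((S.cyc g : Eˣ) : E) ^ j * ((S.cyc g : Eˣ) : E) ^ j := by rw [two_mul, pow_add]
  constructor
  · have h2 : ((S.cyc g : Eˣ) : E) ^ (2 * j) *
        S.cup X j ((S.cohQ X (2 * j)).ρ g t) ((S.cohQ X (2 * j)).ρ g x) = S.cup X j t x := hd g t x
    rw [hc] at h2
    have h3 : S.cup X j t ((S.cohQ X (2 * j)).ρ g x) = ((S.cyc g : Eˣ) : E) ^ j *
        S.cup X j ((S.cohQ X (2 * j)).ρ g t) ((S.cohQ X (2 * j)).ρ g x) := by
      conv_lhs => rw [← h1]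
      rw [map_smul, LinearMap.smul_apply, smul_eq_mul]
    rw [h3, ← h2]
    ring
  · have h2 : ((S.cyc g : Eˣ) : E) ^ (2 * j) *
        S.cup X j ((S.cohQ X (2 * j)).ρ g x) ((S.cohQ X (2 * j)).ρ g t) = S.cup X j x t := hd g x t
    rw [hc] at h2
    have h3 : S.cup X j ((S.cohQ X (2 * j)).ρ g x) t = ((S.cyc g : Eˣ) : E) ^ j *
        S.cup X j ((S.cohQ X (2 * j)).ρ g x) ((S.cohQ X (2 * j)).ρ g t) := by
      conv_lhs => rw [← h1]
      rw [map_smul, smul_eq_mul]
    rw [h3, ← h2]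
    ring

/-- semisimplicity implies that the form on the Tate classes is nondegenerate -/
theorem tate_of_semisimple (hD : S.HasDuality) {X : S.VarQ} {j : ℕ} (hr : S.rat X)
    (hdim : S.dim X = 2 * j) (hss : (S.cohQ X (2 * j)).IsSemisimple) :
    S.TateNondegenerate X j := by
  obtain ⟨hnd, heq⟩ := hD X j hr hdim
  intro t ht h0
  by_contra hne
  have hc : ∀ g, ((S.cyc g : Eˣ) : E) ^ j ≠ 0 := fun g => pow_ne_zero _ (S.cyc g).ne_zero
  have hK : (S.cohQ X (2 * j)).Stable (LinearMap.ker (S.cup X j t)) := by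
    intro g x hx
    rw [LinearMap.mem_ker] at hx ⊢
    change S.cup X j t ((S.cohQ X (2 * j)).ρ g x) = 0
    have h1 := (fun_tate heq ht g x).1
    rw [hx] at h1
    exact (mul_eq_zero.1 h1).resolve_left (hc g)
  obtain ⟨D, hDs, hDc⟩ := hss _ hK
  obtain ⟨x, hx⟩ : ∃ x, S.cup X j t x ≠ 0 := by
    by_contra hcon
    push Not at hcon
    exact hne (hnd t hcon)
  obtain ⟨a, ha, d, hd, rfl⟩ : ∃ a ∈ LinearMap.ker (S.cup X j t), ∃ d ∈ D, a + d = x := by
    have : x ∈ LinearMap.ker (S.cup X j t) ⊔ D := by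
      rw [codisjoint_iff.1 hDc.2]
      trivial
    exact Submodule.mem_sup.1 this
  rw [map_add, LinearMap.mem_ker.1 ha, zero_add] at hx
  apply hx
  apply h0
  intro g
  have h2 : ((S.cyc g : Eˣ) : E) ^ j • (S.cohQ X (2 * j)).ρ g d - d ∈
      LinearMap.ker (S.cup X j t) := by
    rw [LinearMap.mem_ker, map_sub, map_smul, smul_eq_mul, (fun_tate heq ht g d).1, sub_self]
  have h3 : ((S.cyc g : Eˣ) : E) ^ j • (S.cohQ X (2 * j)).ρ g d - d ∈ D :=
    D.sub_mem (D.smul_mem _ (hDs g d hd)) hd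
  have h4 := Submodule.disjoint_def.1 hDc.1 _ h2 h3
  exact sub_eq_zero.1 h4

/-- the converse -/
theorem semisimple_of_tate [CharZero E] (hS : S.IsEtale)
    (hT : ∀ (X : S.VarQ) (j : ℕ), S.rat X → S.dim X = 2 * j → S.TateNondegenerate X j)
    (X : S.VarQ) (i : ℕ) : (S.cohQ X i).IsSemisimple := by
  have hfin := hS.finite X i
  have hpow := hS.powers X i
  generalize S.cohQ X i = R at hfin hpow ⊢
  intro U hU
  obtain ⟨r, hr⟩ : ∃ r, finrank E U = r := ⟨_, rfl⟩
  rcases r with _ | k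
  · have hbot : U = ⊥ := by
      rw [← Submodule.finrank_eq_zero (R := E)]
      exact hr
    exact ⟨⊤, fun _ _ _ => trivial, by rw [hbot]; exact isCompl_bot_top⟩
  let e : Basis (Fin (k + 1)) E U := (finBasis E U).reindex (finCongr hr)
  let t := R.alt (k + 1) (fun i => (e i : R.V))
  have ht0 : t ≠ 0 := R.alt_ne_zero U e
  have htχ : ∀ g, (R.power (k + 1)).ρ g t = ((R.detSub U hU g : Eˣ) : E) • t :=
    fun g => R.alt_basis U hU e g
  -- powers
  obtain ⟨Y, hY⟩ := hpow (k + 1)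
  generalize (k + 1) * i = n at hY
  obtain ⟨m, hm, hfin'⟩ : ∃ m, n = 2 * m ∧ S.fin (R.detSub U hU * S.cyc ^ m) := by
    obtain ⟨a, ha, ha'⟩ := hY
    change ∀ g x, (S.cohQ Y n).ρ g (a x) =
      (((1 : S.G →* Eˣ) g : Eˣ) : E) • a ((R.power (k + 1)).ρ g x) at ha'
    refine hS.lines Y n (R.detSub U hU) (a t) (fun h => ht0 (ha (by rw [h, map_zero]))) ?_
    intro g
    change (S.cohQ Y n).ρ g (a t) = _
    rw [ha', htχ, map_smul]
    simp
  subst hm
  -- twist, blow-up, projective space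
  obtain ⟨Y₂, hY₂⟩ := hS.twists Y _ hfin'
  obtain ⟨Y₃, hr₃, hY₃⟩ := hS.blowUp Y₂
  obtain ⟨s, N, hsN, hdimN⟩ : ∃ s N : ℕ, s ≤ N ∧ S.dim Y₃ + N = 2 * (m + 1 + s) := by
    by_cases h : S.dim Y₃ ≤ 2 * m + 2
    · exact ⟨0, 2 * m + 2 - S.dim Y₃, Nat.zero_le _, by omega⟩
    · exact ⟨S.dim Y₃ - (2 * m + 2), S.dim Y₃ - (2 * m + 2), le_rfl, by omega⟩
  obtain ⟨Z, hdZ, hrZ, hYZ⟩ := hS.projectiveSpaces Y₃ N
  have hZ1 := ((hY.trans (hY₂ (2 * m))).trans (hY₃ (2 * m))).trans (hYZ (2 * m + 2) s hsN)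
  have hdeg : 2 * m + 2 + 2 * s = 2 * (m + 1 + s) := by ring
  rw [hdeg] at hZ1
  have hdimZ : S.dim Z = 2 * (m + 1 + s) := by rw [hdZ, hdimN]
  generalize hj : m + 1 + s = j at *
  obtain ⟨hnd, heq⟩ := hS.duality Z j (hrZ hr₃) hdimZ
  obtain ⟨a, ha, ha'⟩ := hZ1
  change ∀ g x, (S.cohQ Z (2 * j)).ρ g (a x) =
      (((1 * (R.detSub U hU * S.cyc ^ m)⁻¹ * S.cyc⁻¹ * S.cyc⁻¹ ^ s : S.G →* Eˣ) g : Eˣ) : E) •
        a ((R.power (k + 1)).ρ g x) at ha'
  -- the character
  have hθ : ∀ g, (((1 * (R.detSub U hU * S.cyc ^ m)⁻¹ * S.cyc⁻¹ * S.cyc⁻¹ ^ s : S.G →* Eˣ) g :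
      Eˣ) : E) * (((R.detSub U hU g : Eˣ) : E) * ((S.cyc g : Eˣ) : E) ^ j) = 1 := by
    intro g
    rw [← hj]
    rw [← Units.val_pow_eq_pow_val, ← Units.val_mul, ← Units.val_mul, Units.val_eq_one]
    simp only [MonoidHom.mul_apply, MonoidHom.inv_apply, MonoidHom.pow_apply, MonoidHom.one_apply]
    rw [mul_inv, one_mul, pow_add, pow_add, pow_one, inv_pow]
    generalize (R.detSub U hU g) = A
    generalize (S.cyc g) = c
    rw [show A⁻¹ * (c ^ m)⁻¹ * c⁻¹ * (c ^ s)⁻¹ * (A * (c ^ m * c * c ^ s)) =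
      (A⁻¹ * A) * ((c ^ m)⁻¹ * c ^ m) * (c⁻¹ * c) * ((c ^ s)⁻¹ * c ^ s) by
        rw [mul_comm A, ← mul_assoc]
        ac_rfl]
    simp
  have hat : (S.mid Z j).IsTate S.cyc j (a t) := by
    intro g
    change ((S.cyc g : Eˣ) : E) ^ j • (S.cohQ Z (2 * j)).ρ g (a t) = a t
    rw [ha', htχ, map_smul, smul_smul, smul_smul]
    have h1 := hθ g
    have h2 : ((S.cyc g : Eˣ) : E) ^ j *
      (((1 * (R.detSub U hU * S.cyc ^ m)⁻¹ * S.cyc⁻¹ * S.cyc⁻¹ ^ s : S.G →* Eˣ) g : Eˣ) : E)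
        * ((R.detSub U hU g : Eˣ) : E) = 1 := by linear_combination h1
    rw [h2, one_smul]
  obtain ⟨t', ht', hne⟩ : ∃ t' : (S.cohQ Z (2 * j)).V, (S.mid Z j).IsTate S.cyc j t' ∧
      S.cup Z j (a t) t' ≠ 0 := by
    by_contra hcon
    push Not at hcon
    have h1 := hT Z j (hrZ hr₃) hdimZ (a t) hat hcon
    exact ht0 (ha (h1.trans (map_zero a).symm))
  refine R.exists_compl U hU e (((S.cup Z j).flip t').comp a) (fun g x => ?_) hne
  change S.cup Z j (a ((R.power (k + 1)).ρ g x)) t' = _ * S.cup Z j (a x) t'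
  have h2 := (fun_tate heq ht' g (a x)).2
  rw [ha' g x, map_smul, LinearMap.smul_apply, smul_eq_mul] at h2
  have h3 := hθ g
  have h4 : ((S.cyc g : Eˣ) : E) ^ j ≠ 0 := pow_ne_zero _ (S.cyc g).ne_zero
  rw [← h2]
  linear_combination (-(S.cup Z j (a ((R.power (k + 1)).ρ g x)) t')) * h3

theorem main [CharZero E] (hS : S.IsEtale) :
    S.AllSemisimple ↔
      ∀ (X : S.VarQ) (j : ℕ), S.rat X → S.dim X = 2 * j → S.TateNondegenerate X j := by
  constructor
  · intro h X j hr hd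
    exact tate_of_semisimple hS.duality hr hd (h.1 X (2 * j))
  · intro h
    refine ⟨semisimple_of_tate hS h, fun K X i => ?_⟩
    obtain ⟨X', hX'⟩ := hS.restriction K X
    exact (hX' i).isSemisimple (semisimple_of_tate hS h X' i)

end Sys

end Pool.Agent.X264.TC
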